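import Mathlib
import Pool.Agent.W608.BigExp

set_option autoImplicit false

/-!
# Segre's conjecture with one arbitrary multiplicity, few large ones and any number of small ones

General points of the complex projective plane with completely arbitrary multiplicities `m i`.
Choose one of the points, `i₀`, and a number `μ ≥ 2`; let `σ` be the sum of the multiplicities
larger than `μ` of the other points and `D = m i₀ + (μ + 1) (2 μ ^ 2 + 6 μ + 5) + (μ + 2) σ`. In
every degree `d ≥ D` the linear system is not special; if the number `∑ (m i + 1).choose 2` of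
conditions is at least `(D + 2).choose 2`, this holds in every degree `d` whatsoever.

In particular one multiplicity can be arbitrary: if the others are at most `μ`, then the system is
not special for `d ≥ m i₀ + (μ + 1) (2 μ ^ 2 + 6 μ + 5)`.
-/

namespace Pool.Agent.Results.MP_cfebfb_ag.OneArbitraryMultiplicity

open MvPolynomial

theorem result (h : ℕ) (m : Fin h → ℕ) (i₀ : Fin h) (μ : ℕ) (hμ : 2 ≤ μ) (D : ℕ)
    (hD : D = m i₀ + (μ + 1) * (2 * μ ^ 2 + 6 * μ + 5) +
      (μ + 2) * ∑ i ∈ Finset.univ.erase i₀, if μ < m i then m i else 0) :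
    ∃ Q : MvPolynomial (Fin h × Fin 3) ℂ, Q ≠ 0 ∧
      ∀ p : Fin h → Fin 3 → ℂ,
        MvPolynomial.eval (fun ij : Fin h × Fin 3 => p ij.1 ij.2) Q ≠ 0 →
        ∀ d : ℕ, (D ≤ d ∨ (D + 2).choose 2 ≤ ∑ i, (m i + 1).choose 2) →
          ∀ F : Fin ((d + 2).choose 2 - ∑ i, (m i + 1).choose 2 + 1) →
            MvPolynomial (Fin 3) ℂ,
          (∀ k, F k ∈ MvPolynomial.homogeneousSubmodule (Fin 3) ℂ d ∧
            ∀ i, ∀ n : Fin 3 →₀ ℕ, ∑ j, n j < m i →
              MvPolynomial.coeff n
                (MvPolynomial.aeval (R := ℂ)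
                  (fun j : Fin 3 => (X j + C (p i j) : MvPolynomial (Fin 3) ℂ)) (F k)) = 0) →
          ¬ LinearIndependent ℂ F := by
  obtain ⟨Q, hQ, hQ'⟩ := H932R3.not_special_of (L := ℂ)
    (W608.exp_big ℂ μ hμ m i₀ D hD.ge)
  exact ⟨Q, hQ, fun p hp d h1 => hQ' p hp d h1⟩

end Pool.Agent.Results.MP_cfebfb_ag.OneArbitraryMultiplicity
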